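import Mathlib

set_option autoImplicit false

/-!
# Low-multiplicity distances of planar sets with small doubling
-/

open Finset
open scoped Pointwise Combinatorics.Additive

namespace Pool.Agent.H3.LD

/-- the plane. -/
abbrev Pl : Type := EuclideanSpace ℝ (Fin 2)

/-- the distances of `A`. -/
noncomputable def dd (A : Finset Pl) : Finset ℝ := A.offDiag.image (fun p => dist p.1 p.2)

/-- the number of ordered pairs at distance `d`. -/
noncomputable def mu (A : Finset Pl) (d : ℝ) : ℕ :=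
  (A.offDiag.filter (fun p => dist p.1 p.2 = d)).card

/-- the low-multiplicity distances. -/
noncomputable def low (A : Finset Pl) : Finset ℝ := (dd A).filter (fun d => mu A d ≤ 2 * A.card)

theorem two_circles (s : Finset Pl) (c₁ c₂ : Pl) (hc : c₁ ≠ c₂) (r₁ r₂ : ℝ)
    (h : ∀ p ∈ s, dist p c₁ = r₁ ∧ dist p c₂ = r₂) : s.card ≤ 2 := by
  by_contra hcard
  obtain ⟨a, ha, b, hb, c, hc', hab, hac, hbc⟩ := Finset.two_lt_card.1 (not_le.1 hcard)
  have hd : Module.finrank ℝ Pl = 2 := by simp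
  rcases EuclideanGeometry.eq_of_dist_eq_of_dist_eq_of_finrank_eq_two hd hc hab (h a ha).1
    (h b hb).1 (h c hc').1 (h a ha).2 (h b hb).2 (h c hc').2 with h1 | h1
  · exact hac h1.symm
  · exact hbc h1.symm

theorem card_le_sq (s : Finset Pl) (c₁ c₂ v : Pl) (hc : c₁ ≠ c₂) (T : Finset ℝ)
    (h : ∀ p ∈ s, dist (p + v) c₁ ∈ T ∧ dist (p + v) c₂ ∈ T) : s.card ≤ 2 * T.card ^ 2 := by
  have h1 : s.card ≤ 2 * (T ×ˢ T).card := by
    refine Finset.card_le_mul_card_image_of_maps_to
      (f := fun p => (dist (p + v) c₁, dist (p + v) c₂)) ?_ 2 ?_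
    · intro p hp
      exact Finset.mem_product.2 (h p hp)
    · intro b _
      rw [← Finset.card_image_of_injective _ (add_left_injective v)]
      refine two_circles _ c₁ c₂ hc b.1 b.2 ?_
      intro q hq
      obtain ⟨p, hp, rfl⟩ := Finset.mem_image.1 hq
      have h2 := (Finset.mem_filter.1 hp).2
      exact ⟨congrArg Prod.fst h2, congrArg Prod.snd h2⟩
  rw [Finset.card_product] at h1
  rw [pow_two]
  exact h1

/-- The number of parallel pairs with difference `v` is at most `2 k ^ 2 + 2`, if at most `k`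
distances are larger than `‖v‖`. -/
theorem par (A : Finset Pl) (v : Pl) :
    (A.filter (fun x => x + v ∈ A)).card ≤ 2 * ((dd A).filter (fun d => ‖v‖ < d)).card ^ 2 + 2 := by
  set X := A.filter (fun x => x + v ∈ A) with hX
  rcases X.eq_empty_or_nonempty with h0 | h0
  · rw [h0, Finset.card_empty]; omega
  obtain ⟨x₁, hx₁, hm₁⟩ := Finset.exists_min_image X (fun x => inner ℝ x v) h0
  rcases (X.erase x₁).eq_empty_or_nonempty with h1 | h1
  · have h2 := Finset.card_erase_add_one hx₁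
    rw [h1, Finset.card_empty] at h2
    omega
  obtain ⟨x₂, hx₂, hm₂⟩ := Finset.exists_min_image (X.erase x₁) (fun x => inner ℝ x v) h1
  have h3 := Finset.card_erase_add_one hx₁
  have h4 := Finset.card_erase_add_one hx₂
  have hne : x₁ ≠ x₂ := (Finset.ne_of_mem_erase hx₂).symm
  have key : ∀ p ∈ X, ∀ x ∈ X, p ≠ x → inner ℝ x v ≤ inner ℝ p v →
      dist (p + v) x ∈ (dd A).filter (fun d => ‖v‖ < d) := by
    intro p hp x hx hpx hin
    have hlt : ‖v‖ < dist (p + v) x := by
      rw [dist_eq_norm]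
      have e : p + v - x = (p - x) + v := by abel
      rw [e]
      have h5 := @norm_add_sq_real Pl _ _ (p - x) v
      have h6 : 0 < ‖p - x‖ := norm_pos_iff.2 (sub_ne_zero.2 hpx)
      have h7 : inner ℝ (p - x) v = inner ℝ p v - inner ℝ x v := inner_sub_left _ _ _
      rw [h7] at h5
      have h8 : ‖v‖ ^ 2 < ‖p - x + v‖ ^ 2 := by nlinarith [pow_pos h6 2]
      exact lt_of_pow_lt_pow_left₀ 2 (norm_nonneg _) h8
    refine Finset.mem_filter.2 ⟨Finset.mem_image.2 ⟨(p + v, x), ?_, rfl⟩, hlt⟩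
    rw [Finset.mem_offDiag]
    refine ⟨(Finset.mem_filter.1 hp).2, (Finset.mem_filter.1 hx).1, ?_⟩
    intro he
    have he' : p + v = x := he
    rw [he', dist_self] at hlt
    exact absurd hlt (not_lt.2 (norm_nonneg v))
  have h5 : ((X.erase x₁).erase x₂).card ≤
      2 * ((dd A).filter (fun d => ‖v‖ < d)).card ^ 2 := by
    refine card_le_sq _ x₁ x₂ v hne _ ?_
    intro p hp
    obtain ⟨hp2, hp'⟩ := Finset.mem_erase.1 hp
    obtain ⟨hp1, hp0⟩ := Finset.mem_erase.1 hp'
    exact ⟨key p hp0 x₁ hx₁ hp1 (hm₁ p hp0), key p hp0 x₂ (Finset.mem_of_mem_erase hx₂) hp2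
      (hm₂ p hp')⟩
  omega

/-- the vectors of length `d` in the difference set. -/
noncomputable def sv (A : Finset Pl) (d : ℝ) : Finset Pl := (A - A).filter (fun v => ‖v‖ = d)

theorem mu_le (A : Finset Pl) (d : ℝ) (k : ℕ) (hk : ((dd A).filter (fun e => d < e)).card ≤ k) :
    mu A d ≤ (2 * k ^ 2 + 2) * (sv A d).card := by
  refine Finset.card_le_mul_card_image_of_maps_to (f := fun p : Pl × Pl => p.2 - p.1) ?_ _ ?_
  · intro p hp
    obtain ⟨h1, h2⟩ := Finset.mem_filter.1 hp
    obtain ⟨h3, h4, -⟩ := Finset.mem_offDiag.1 h1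
    refine Finset.mem_filter.2 ⟨Finset.sub_mem_sub h4 h3, ?_⟩
    rw [← dist_eq_norm, dist_comm]
    exact h2
  · intro v hv
    have hv2 : ‖v‖ = d := (Finset.mem_filter.1 hv).2
    have h1 := par A v
    rw [hv2] at h1
    have h2 : 2 * ((dd A).filter (fun e => d < e)).card ^ 2 + 2 ≤ 2 * k ^ 2 + 2 := by
      have := Nat.pow_le_pow_left hk 2
      omega
    refine le_trans ?_ (h1.trans h2)
    refine Finset.card_le_card_of_injOn (fun p => p.1) ?_ ?_
    · intro p hp
      obtain ⟨h3, h4⟩ := Finset.mem_filter.1 (Finset.mem_coe.1 hp)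
      obtain ⟨h5, h6, -⟩ := Finset.mem_offDiag.1 (Finset.mem_filter.1 h3).1
      refine Finset.mem_coe.2 (Finset.mem_filter.2 ⟨h5, ?_⟩)
      rw [← h4]
      simpa using h6
    · intro p hp q hq hpq
      have h4 := (Finset.mem_filter.1 (Finset.mem_coe.1 hp)).2
      have h4' := (Finset.mem_filter.1 (Finset.mem_coe.1 hq)).2
      have hpq' : p.1 = q.1 := hpq
      refine Prod.ext hpq' ?_
      have h6 : p.2 - p.1 = q.2 - q.1 := h4.trans h4'.symm
      rw [hpq'] at h6
      exact sub_left_injective h6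

/-- If at most `k` distances are low, then some circle contains many difference vectors. -/
theorem core (A : Finset Pl) (k : ℕ) (hL : (low A).card ≤ k) (hn : 2 * k ^ 2 + 2 < A.card) :
    ∃ d : ℝ, A.card < (k ^ 2 + 1) * (sv A d).card := by
  classical
  by_cases hH : ((dd A).filter (fun d => 2 * A.card < mu A d)).Nonempty
  · have hd := Finset.max'_mem _ hH
    set d := ((dd A).filter (fun d => 2 * A.card < mu A d)).max' hH with hdd
    refine ⟨d, ?_⟩
    have hsub : (dd A).filter (fun e => d < e) ⊆ low A := by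
      intro e he
      obtain ⟨h1, h2⟩ := Finset.mem_filter.1 he
      refine Finset.mem_filter.2 ⟨h1, ?_⟩
      by_contra h3
      have h4 := Finset.le_max' ((dd A).filter (fun d => 2 * A.card < mu A d)) e
        (Finset.mem_filter.2 ⟨h1, not_le.1 h3⟩)
      exact absurd h2 (not_lt.2 h4)
    have h1 := mu_le A d k ((Finset.card_le_card hsub).trans hL)
    have h2 := (Finset.mem_filter.1 hd).2
    have h3 : 2 * A.card < 2 * ((k ^ 2 + 1) * (sv A d).card) := by
      refine h2.trans_le (h1.trans_eq ?_)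
      ring
    omega
  · exfalso
    have hall : dd A ⊆ low A := by
      intro e he
      refine Finset.mem_filter.2 ⟨he, ?_⟩
      by_contra h3
      exact hH ⟨e, Finset.mem_filter.2 ⟨he, not_le.1 h3⟩⟩
    have hD : (dd A).card ≤ k := (Finset.card_le_card hall).trans hL
    obtain ⟨x₁, hx₁, x₂, hx₂, hne⟩ := Finset.one_lt_card.1 (show 1 < A.card by omega)
    have h1 : ((A.erase x₁).erase x₂).card ≤ 2 * (dd A).card ^ 2 := by
      refine card_le_sq _ x₁ x₂ 0 hne _ ?_
      intro p hp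
      obtain ⟨hp2, hp'⟩ := Finset.mem_erase.1 hp
      obtain ⟨hp1, hp0⟩ := Finset.mem_erase.1 hp'
      rw [add_zero]
      exact ⟨Finset.mem_image.2 ⟨(p, x₁), Finset.mem_offDiag.2 ⟨hp0, hx₁, hp1⟩, rfl⟩,
        Finset.mem_image.2 ⟨(p, x₂), Finset.mem_offDiag.2 ⟨hp0, hx₂, hp2⟩, rfl⟩⟩
    have h2 := Finset.card_erase_add_one hx₁
    have h3 := Finset.card_erase_add_one (Finset.mem_erase.2 ⟨hne.symm, hx₂⟩)
    have h4 : 2 * (dd A).card ^ 2 ≤ 2 * k ^ 2 := by
      have := Nat.pow_le_pow_left hD 2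
      omega
    omega

theorem energy_le (A S : Finset Pl) (d : ℝ) (hS : ∀ s ∈ S, ‖s‖ = d) :
    E[A, S] ≤ A.card * S.card + 2 * A.card ^ 2 := by
  classical
  unfold Finset.addEnergy
  have hmap : ∀ x ∈ ((A ×ˢ A) ×ˢ (S ×ˢ S)).filter
      (fun x : (Pl × Pl) × (Pl × Pl) => x.1.1 + x.2.1 = x.1.2 + x.2.2), x.1 ∈ A ×ˢ A := by
    intro x hx
    exact (Finset.mem_product.1 (Finset.mem_filter.1 hx).1).1
  rw [Finset.card_eq_sum_card_fiberwise hmap]
  have hterm : ∀ p ∈ A ×ˢ A, (((A ×ˢ A) ×ˢ (S ×ˢ S)).filter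
      (fun x : (Pl × Pl) × (Pl × Pl) => x.1.1 + x.2.1 = x.1.2 + x.2.2) |>.filter
        (fun x => x.1 = p)).card ≤ (if p.1 = p.2 then S.card else 0) + 2 := by
    intro p _
    split_ifs with h
    · refine le_trans ?_ (Nat.le_add_right _ 2)
      refine Finset.card_le_card_of_injOn (fun x => x.2.1) ?_ ?_
      · intro x hx
        obtain ⟨h1, h2⟩ := Finset.mem_filter.1 (Finset.mem_coe.1 hx)
        exact (Finset.mem_product.1 (Finset.mem_product.1 (Finset.mem_filter.1 h1).1).2).1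
      · intro x hx y hy hxy
        obtain ⟨h1, h2⟩ := Finset.mem_filter.1 (Finset.mem_coe.1 hx)
        obtain ⟨h1', h2'⟩ := Finset.mem_filter.1 (Finset.mem_coe.1 hy)
        have h3 := (Finset.mem_filter.1 h1).2
        have h3' := (Finset.mem_filter.1 h1').2
        rw [h2, h] at h3
        rw [h2', h] at h3'
        have hxy' : x.2.1 = y.2.1 := hxy
        refine Prod.ext (h2.trans h2'.symm) (Prod.ext hxy' ?_)
        rw [← add_left_cancel h3, ← add_left_cancel h3', hxy']
    · rw [zero_add]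
      have hinj : Set.InjOn (fun x : (Pl × Pl) × (Pl × Pl) => x.2.1)
          ((((A ×ˢ A) ×ˢ (S ×ˢ S)).filter
          (fun x : (Pl × Pl) × (Pl × Pl) => x.1.1 + x.2.1 = x.1.2 + x.2.2) |>.filter
          (fun x => x.1 = p)) : Set ((Pl × Pl) × (Pl × Pl))) := by
        intro x hx y hy hxy
        obtain ⟨h1, h2⟩ := Finset.mem_filter.1 (Finset.mem_coe.1 hx)
        obtain ⟨h1', h2'⟩ := Finset.mem_filter.1 (Finset.mem_coe.1 hy)
        have h3 := (Finset.mem_filter.1 h1).2
        have h3' := (Finset.mem_filter.1 h1').2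
        rw [h2] at h3
        rw [h2'] at h3'
        have hxy' : x.2.1 = y.2.1 := hxy
        refine Prod.ext (h2.trans h2'.symm) (Prod.ext hxy' ?_)
        have h4 : p.2 + x.2.2 = p.2 + y.2.2 := by rw [← h3, ← h3', hxy']
        exact add_left_cancel h4
      rw [← Finset.card_image_of_injOn hinj]
      have hc : (0 : Pl) ≠ p.2 - p.1 := by
        intro h0
        exact h (sub_eq_zero.1 h0.symm).symm
      refine two_circles _ 0 (p.2 - p.1) hc d d ?_
      intro q hq
      obtain ⟨x, hx, rfl⟩ := Finset.mem_image.1 hq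
      obtain ⟨h1, h2⟩ := Finset.mem_filter.1 hx
      have h3 := (Finset.mem_filter.1 h1).2
      have h4 := Finset.mem_product.1 (Finset.mem_product.1 (Finset.mem_filter.1 h1).1).2
      rw [h2] at h3
      refine ⟨by rw [dist_zero_right]; exact hS _ h4.1, ?_⟩
      have h5 : x.2.1 - (p.2 - p.1) = x.2.2 := by
        have : x.2.1 = p.2 + x.2.2 - p.1 := by rw [← h3]; abel
        rw [this]; abel
      rw [dist_eq_norm, h5]
      exact hS _ h4.2
  refine (Finset.sum_le_sum hterm).trans ?_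
  rw [Finset.sum_add_distrib, Finset.sum_const, Finset.card_product, smul_eq_mul,
    Finset.sum_product]
  have h1 : ∑ a ∈ A, ∑ b ∈ A, (if (a, b).1 = (a, b).2 then S.card else 0) = A.card * S.card := by
    rw [← smul_eq_mul, ← Finset.sum_const]
    refine Finset.sum_congr rfl fun a ha => ?_
    simp [ha]
  rw [h1]
  apply le_of_eq
  ring

section two

variable {G : Type} [AddCommGroup G] [DecidableEq G]

/-- horizontal segment. -/
def T1 (t : ℕ) : Finset (ℤ × ℤ) := (range t).image (fun i : ℕ => ((i : ℤ), (0 : ℤ)))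

/-- vertical segment. -/
def T2 (t : ℕ) : Finset (ℤ × ℤ) := (range t).image (fun i : ℕ => ((0 : ℤ), (i : ℤ)))

theorem card_T1 (t : ℕ) : (T1 t).card ≤ t := by
  refine Finset.card_image_le.trans ?_
  rw [Finset.card_range]

theorem card_T2 (t : ℕ) : (T2 t).card ≤ t := by
  refine Finset.card_image_le.trans ?_
  rw [Finset.card_range]

/-- Plünnecke's inequality with two different summands (with a constant `4`). -/
theorem plu2 (A B₁ B₂ : Finset G) (hA : A.Nonempty) (h1 : B₁.Nonempty) (h2 : B₂.Nonempty) :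
    ∃ X ⊆ A, X.Nonempty ∧
      (X + B₁ + B₂).card * A.card ^ 2 ≤ 4 * ((A + B₁).card * (A + B₂).card) * X.card := by
  classical
  set p := (A + B₁).card with hp
  set q := (A + B₂).card with hq
  have hp0 : 0 < p := (hA.add h1).card_pos
  have hq0 : 0 < q := (hA.add h2).card_pos
  set A' : Finset (G × (ℤ × ℤ)) := A ×ˢ {0} with hA'
  set B' : Finset (G × (ℤ × ℤ)) := B₁ ×ˢ T1 q ∪ B₂ ×ˢ T2 p with hB'
  have hcA : A'.card = A.card := by rw [hA', Finset.card_product, Finset.card_singleton, mul_one]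
  have hAB : (A' + B').card ≤ 2 * (p * q) := by
    have e1 : A' + B₁ ×ˢ T1 q ⊆ (A + B₁) ×ˢ T1 q := by
      intro z hz
      obtain ⟨a, ha, b, hb, rfl⟩ := Finset.mem_add.1 hz
      obtain ⟨ha1, ha2⟩ := Finset.mem_product.1 ha
      obtain ⟨hb1, hb2⟩ := Finset.mem_product.1 hb
      refine Finset.mem_product.2 ⟨Finset.add_mem_add ha1 hb1, ?_⟩
      rw [Finset.mem_singleton] at ha2
      rw [Prod.snd_add, ha2, zero_add]
      exact hb2
    have e2 : A' + B₂ ×ˢ T2 p ⊆ (A + B₂) ×ˢ T2 p := by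
      intro z hz
      obtain ⟨a, ha, b, hb, rfl⟩ := Finset.mem_add.1 hz
      obtain ⟨ha1, ha2⟩ := Finset.mem_product.1 ha
      obtain ⟨hb1, hb2⟩ := Finset.mem_product.1 hb
      refine Finset.mem_product.2 ⟨Finset.add_mem_add ha1 hb1, ?_⟩
      rw [Finset.mem_singleton] at ha2
      rw [Prod.snd_add, ha2, zero_add]
      exact hb2
    have e3 : A' + B' = (A' + B₁ ×ˢ T1 q) ∪ (A' + B₂ ×ˢ T2 p) := Finset.add_union
    have c1 := Finset.card_le_card e1
    have c2 := Finset.card_le_card e2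
    rw [Finset.card_product, ← hp] at c1
    rw [Finset.card_product, ← hq] at c2
    have c1' : p * (T1 q).card ≤ p * q := Nat.mul_le_mul_left _ (card_T1 q)
    have c2' : q * (T2 p).card ≤ q * p := Nat.mul_le_mul_left _ (card_T2 p)
    rw [e3]
    refine (Finset.card_union_le _ _).trans ?_
    rw [mul_comm q p] at c2'
    omega
  have hA'0 : A'.Nonempty := by
    rw [← Finset.card_pos, hcA]
    exact hA.card_pos
  have hmem : A' ∈ A'.powerset.erase ∅ :=
    mem_erase_of_ne_of_mem hA'0.ne_empty (mem_powerset_self _)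
  obtain ⟨X', hX', hmin⟩ := Finset.exists_min_image (A'.powerset.erase ∅)
    (fun U => ((U + B').card : ℚ≥0) / U.card) ⟨A', hmem⟩
  obtain ⟨hX'0, hX'A⟩ := Finset.mem_erase.1 hX'
  rw [Finset.mem_powerset] at hX'A
  have hX'1 : X'.Nonempty := Finset.nonempty_iff_ne_empty.2 hX'0
  have hmin' : ∀ U ⊆ A', (X' + B').card * U.card ≤ (U + B').card * X'.card := by
    intro U hU
    rcases U.eq_empty_or_nonempty with rfl | hU0
    · simp
    · have h3 := hmin U (Finset.mem_erase.2 ⟨hU0.ne_empty, Finset.mem_powerset.2 hU⟩)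
      have c1 : (0 : ℚ≥0) < X'.card := by exact_mod_cast hX'1.card_pos
      have c2 : (0 : ℚ≥0) < U.card := by exact_mod_cast hU0.card_pos
      exact_mod_cast (div_le_div_iff₀ c1 c2).1 h3
  have hpet := Finset.pluennecke_petridis_inequality_add (A := X') (B := B') B'
    (fun U hU => hmin' U (hU.trans hX'A))
  have hAm := hmin' A' subset_rfl
  set X := X'.image Prod.fst with hX
  have hzero : ∀ z ∈ X', z.2 = 0 := fun z hz =>
    Finset.mem_singleton.1 (Finset.mem_product.1 (hX'A hz)).2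
  have hcX : X.card = X'.card := by
    refine Finset.card_image_of_injOn ?_
    intro z hz w hw hzw
    exact Prod.ext hzw ((hzero z hz).trans (hzero w hw).symm)
  have hsub : (X + B₁ + B₂) ×ˢ ((range q ×ˢ range p).image
      (fun i : ℕ × ℕ => ((i.1 : ℤ), (i.2 : ℤ)))) ⊆ B' + X' + B' := by
    intro z hz
    obtain ⟨hz1, hz2⟩ := Finset.mem_product.1 hz
    obtain ⟨w, hw, b₂, hb₂, hwb⟩ := Finset.mem_add.1 hz1
    obtain ⟨x, hx, b₁, hb₁, hxb⟩ := Finset.mem_add.1 hw
    obtain ⟨i, hi, hij⟩ := Finset.mem_image.1 hz2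
    obtain ⟨hi1, hi2⟩ := Finset.mem_product.1 hi
    obtain ⟨y, hy, hyx⟩ := Finset.mem_image.1 hx
    refine Finset.mem_add.2 ⟨(b₁, ((i.1 : ℤ), 0)) + y, Finset.add_mem_add ?_ hy,
      (b₂, (0, (i.2 : ℤ))), ?_, ?_⟩
    · exact Finset.mem_union_left _ (Finset.mem_product.2
        ⟨hb₁, Finset.mem_image.2 ⟨i.1, hi1, rfl⟩⟩)
    · exact Finset.mem_union_right _ (Finset.mem_product.2
        ⟨hb₂, Finset.mem_image.2 ⟨i.2, hi2, rfl⟩⟩)
    · refine Prod.ext ?_ ?_
      · change b₁ + y.1 + b₂ = z.1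
        rw [hyx, ← hwb, ← hxb]
        abel
      · change (((i.1 : ℤ), (0 : ℤ)) + y.2 + ((0 : ℤ), (i.2 : ℤ))) = z.2
        rw [hzero y hy, ← hij]
        simp
  have hcp : ((range q ×ˢ range p).image (fun i : ℕ × ℕ => ((i.1 : ℤ), (i.2 : ℤ)))).card =
      q * p := by
    rw [Finset.card_image_of_injective, Finset.card_product, Finset.card_range, Finset.card_range]
    intro i j hij
    have h3 : (i.1 : ℤ) = j.1 := congrArg Prod.fst hij
    have h4 : (i.2 : ℤ) = j.2 := congrArg Prod.snd hij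
    exact Prod.ext (by exact_mod_cast h3) (by exact_mod_cast h4)
  have hc := Finset.card_le_card hsub
  rw [Finset.card_product, hcp] at hc
  refine ⟨X, ?_, hX'1.image _, ?_⟩
  · intro x hx
    obtain ⟨y, hy, rfl⟩ := Finset.mem_image.1 hx
    exact (Finset.mem_product.1 (hX'A hy)).1
  · rw [hcX]
    have hx0 : 0 < X'.card := hX'1.card_pos
    rw [add_comm B' X'] at hpet
    have k1 : (X' + B').card * A.card ≤ 2 * (p * q) * X'.card := by
      rw [← hcA]
      exact hAm.trans (Nat.mul_le_mul_right _ hAB)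
    have hc' : (X + B₁ + B₂).card * (q * p) * X'.card ≤ (X' + B').card ^ 2 := by
      calc _ ≤ (B' + X' + B').card * X'.card := Nat.mul_le_mul_right _ hc
        _ = (X' + B' + B').card * X'.card := by rw [add_comm B' X']
        _ ≤ (X' + B').card * (X' + B').card := hpet
        _ = _ := by ring
    have k2 : (X + B₁ + B₂).card * A.card ^ 2 * (p * q * X'.card) ≤
        4 * (p * q) * X'.card * (p * q * X'.card) := by
      calc _ = ((X + B₁ + B₂).card * (q * p) * X'.card) * A.card ^ 2 := by ring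
        _ ≤ (X' + B').card ^ 2 * A.card ^ 2 := Nat.mul_le_mul_right _ hc'
        _ = ((X' + B').card * A.card) ^ 2 := by ring
        _ ≤ (2 * (p * q) * X'.card) ^ 2 := Nat.pow_le_pow_left k1 2
        _ = _ := by ring
    exact Nat.le_of_mul_le_mul_right k2 (by positivity)

end two

/-- Main inequality. -/
theorem main (A : Finset Pl) (k : ℕ) (h0 : A.Nonempty)
    (h : 12 * (k ^ 2 + 1) ^ 2 * ((A + A).card * (A - A).card) ≤ A.card ^ 3) :
    k + 1 ≤ (low A).card := by
  by_contra hcon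
  have hL : (low A).card ≤ k := by omega
  have hn0 : 0 < A.card := h0.card_pos
  have hAA : A.card ≤ (A + A).card := Finset.card_le_card_add_self
  have hAD : A.card ≤ (A - A).card := by
    obtain ⟨a, ha⟩ := h0
    calc A.card = (A.image (fun x => x - a)).card :=
          (Finset.card_image_of_injective _ sub_left_injective).symm
      _ ≤ (A - A).card := by
          refine Finset.card_le_card ?_
          intro z hz
          obtain ⟨x, hx, rfl⟩ := Finset.mem_image.1 hz
          exact Finset.sub_mem_sub hx ha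
  have hbig : 12 * (k ^ 2 + 1) ^ 2 ≤ A.card := by
    have h1 : 12 * (k ^ 2 + 1) ^ 2 * (A.card * A.card) ≤ A.card * (A.card * A.card) := by
      calc _ ≤ 12 * (k ^ 2 + 1) ^ 2 * ((A + A).card * (A - A).card) :=
            Nat.mul_le_mul_left _ (Nat.mul_le_mul hAA hAD)
        _ ≤ A.card ^ 3 := h
        _ = _ := by ring
    exact Nat.le_of_mul_le_mul_right h1 (by positivity)
  have hn : 2 * k ^ 2 + 2 < A.card := by
    refine lt_of_lt_of_le ?_ hbig
    nlinarith [Nat.zero_le (k ^ 2)]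
  obtain ⟨d, hd⟩ := core A k hL hn
  set S := sv A d with hSdef
  have hS : ∀ s ∈ S, ‖s‖ = d := fun s hs => (Finset.mem_filter.1 hs).2
  obtain ⟨X, hXA, hX0, hX⟩ := plu2 A A (-A) h0 h0 h0.neg
  rw [← sub_eq_add_neg A A] at hX
  have hE := energy_le X S d hS
  have hCS := Finset.le_card_add_mul_addEnergy X S
  have hsub : X + S ⊆ X + A + -A := by
    intro x hx
    obtain ⟨a, ha, s, hs, rfl⟩ := Finset.mem_add.1 hx
    obtain ⟨b, hb, c, hc, rfl⟩ := Finset.mem_sub.1 (Finset.mem_filter.1 hs).1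
    refine Finset.mem_add.2 ⟨a + b, Finset.add_mem_add ha hb, -c, Finset.neg_mem_neg hc, ?_⟩
    abel
  have hN := Finset.card_le_card hsub
  have hx0 : 0 < X.card := hX0.card_pos
  have hxn : X.card ≤ A.card := Finset.card_le_card hXA
  set n := A.card with hndef
  set σ := S.card with hσdef
  set x := X.card with hxdef
  set P := (A + A).card * (A - A).card with hPdef
  have h1 : x * σ ^ 2 ≤ (X + S).card * (σ + 2 * x) := by
    have h2 : x * (x * σ ^ 2) ≤ x * ((X + S).card * (σ + 2 * x)) := by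
      calc x * (x * σ ^ 2) = x ^ 2 * σ ^ 2 := by ring
        _ ≤ (X + S).card * E[X, S] := hCS
        _ ≤ (X + S).card * (x * σ + 2 * x ^ 2) := Nat.mul_le_mul_left _ hE
        _ = _ := by ring
    exact Nat.le_of_mul_le_mul_left h2 hx0
  have h2 : σ ^ 2 * n ^ 2 ≤ 4 * P * (σ + 2 * n) := by
    have h3 : x * (σ ^ 2 * n ^ 2) ≤ x * (4 * P * (σ + 2 * n)) := by
      calc x * (σ ^ 2 * n ^ 2) = (x * σ ^ 2) * n ^ 2 := by ring
        _ ≤ ((X + S).card * (σ + 2 * x)) * n ^ 2 := Nat.mul_le_mul_right _ h1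
        _ ≤ ((X + A + -A).card * (σ + 2 * x)) * n ^ 2 :=
            Nat.mul_le_mul_right _ (Nat.mul_le_mul_right _ hN)
        _ = ((X + A + -A).card * n ^ 2) * (σ + 2 * x) := by ring
        _ ≤ (4 * P * x) * (σ + 2 * x) := Nat.mul_le_mul_right _ hX
        _ ≤ (4 * P * x) * (σ + 2 * n) := Nat.mul_le_mul_left _ (by omega)
        _ = _ := by ring
    exact Nat.le_of_mul_le_mul_left h3 hx0
  have h3 : 3 * (k ^ 2 + 1) ^ 2 * σ ^ 2 ≤ n * (σ + 2 * n) := by
    have h4 : (3 * (k ^ 2 + 1) ^ 2 * σ ^ 2) * n ^ 2 ≤ (n * (σ + 2 * n)) * n ^ 2 := by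
      calc _ = 3 * (k ^ 2 + 1) ^ 2 * (σ ^ 2 * n ^ 2) := by ring
        _ ≤ 3 * (k ^ 2 + 1) ^ 2 * (4 * P * (σ + 2 * n)) := Nat.mul_le_mul_left _ h2
        _ = (12 * (k ^ 2 + 1) ^ 2 * P) * (σ + 2 * n) := by ring
        _ ≤ n ^ 3 * (σ + 2 * n) := Nat.mul_le_mul_right _ h
        _ = _ := by ring
    exact Nat.le_of_mul_le_mul_right h4 (by positivity)
  have h4 : 0 < σ := by
    rcases Nat.eq_zero_or_pos σ with h5 | h5
    · rw [h5, mul_zero] at hd
      omega
    · exact h5
  have h5 : n * (σ + 2 * n) < 3 * (k ^ 2 + 1) ^ 2 * σ ^ 2 := by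
    calc n * (σ + 2 * n) < ((k ^ 2 + 1) * σ) * (σ + 2 * n) :=
          Nat.mul_lt_mul_of_pos_right hd (by omega)
      _ ≤ ((k ^ 2 + 1) * σ) * (σ + 2 * ((k ^ 2 + 1) * σ)) := Nat.mul_le_mul_left _ (by omega)
      _ = (k ^ 2 + 1) * σ ^ 2 + 2 * (k ^ 2 + 1) ^ 2 * σ ^ 2 := by ring
      _ ≤ (k ^ 2 + 1) ^ 2 * σ ^ 2 + 2 * (k ^ 2 + 1) ^ 2 * σ ^ 2 := by
          refine Nat.add_le_add_right (Nat.mul_le_mul_right _ ?_) _
          exact Nat.le_self_pow (by norm_num) _
      _ = _ := by ring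
  omega

end Pool.Agent.H3.LD
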